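import Mathlib

/-!
# Blocks of primes and a slowly summable sequence
-/

namespace Pool.Agent.R165.LS

open Finset Filter Topology

theorem sub_le_exp_neg_sum {s : Finset ℕ} {a : ℕ → ℝ} (h : ∀ i ∈ s, 0 ≤ 1 - a i) :
    ∏ i ∈ s, (1 - a i) ≤ Real.exp (-∑ i ∈ s, a i) := by
  rw [← Finset.sum_neg_distrib, Real.exp_sum]
  refine Finset.prod_le_prod h fun i _ => ?_
  have := Real.add_one_le_exp (-a i)
  linarith

/-- Products of `1 - 1/p` over blocks of consecutive primes. -/
noncomputable def blk (N M : ℕ) : ℝ :=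
  ∏ p ∈ (Finset.Ioc N M).filter Nat.Prime, (1 - 1 / (p : ℝ))

theorem one_sub_nonneg {p : ℕ} (hp : p.Prime) : (1 / 2 : ℝ) ≤ 1 - 1 / (p : ℝ) := by
  have h2 : (2 : ℝ) ≤ p := by exact_mod_cast hp.two_le
  have : 1 / (p : ℝ) ≤ 1 / 2 := one_div_le_one_div_of_le (by norm_num) h2
  linarith

theorem blk_pos (N M : ℕ) : 0 < blk N M := by
  refine Finset.prod_pos fun p hp => ?_
  have := one_sub_nonneg (Finset.mem_filter.mp hp).2
  linarith

theorem exists_block (N : ℕ) (τ : ℝ) (h0 : 0 < τ) (h1 : τ < 1) :
    ∃ M, N < M ∧ τ / 2 < blk N M ∧ blk N M ≤ τ := by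
  have hex : ∃ M, N ≤ M ∧ blk N M ≤ τ := by
    by_contra hcon
    push Not at hcon
    have hbd : ∀ M, N ≤ M → ∑ p ∈ (Finset.Ioc N M).filter Nat.Prime, 1 / (p : ℝ) ≤ -Real.log τ := by
      intro M hM
      have h2 := hcon M hM
      have h3 : blk N M ≤ Real.exp (-∑ p ∈ (Finset.Ioc N M).filter Nat.Prime, 1 / (p : ℝ)) := by
        refine sub_le_exp_neg_sum fun p hp => ?_
        have := one_sub_nonneg (Finset.mem_filter.mp hp).2
        linarith
      have h4 := Real.log_lt_log h0 (h2.trans_le h3)
      rw [Real.log_exp] at h4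
      linarith
    refine not_summable_one_div_on_primes ?_
    refine summable_of_sum_range_le (c := ∑ i ∈ Finset.range (N + 1),
      Set.indicator {p : ℕ | p.Prime} (fun n : ℕ => (1 : ℝ) / n) i + -Real.log τ) ?_ ?_
    · intro n
      refine Set.indicator_nonneg (fun x _ => ?_) n
      positivity
    · intro n
      have hnn : ∀ i, 0 ≤ Set.indicator {p : ℕ | p.Prime} (fun n : ℕ => (1 : ℝ) / n) i :=
        fun i => Set.indicator_nonneg (fun x _ => by positivity) i
      have hsub : Finset.range n ⊆ Finset.range (N + 1) ∪ Finset.Ioc N (N + n) := by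
        intro i hi
        rw [Finset.mem_union, Finset.mem_range, Finset.mem_Ioc]
        rw [Finset.mem_range] at hi
        omega
      refine (Finset.sum_le_sum_of_subset_of_nonneg hsub fun i _ _ => hnn i).trans ?_
      rw [Finset.sum_union (by
        rw [Finset.disjoint_left]
        intro i hi hi'
        rw [Finset.mem_range] at hi
        rw [Finset.mem_Ioc] at hi'
        omega)]
      refine add_le_add le_rfl ?_
      refine le_trans (le_of_eq ?_) (hbd (N + n) (by omega))
      rw [Finset.sum_filter]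
      refine Finset.sum_congr rfl fun i _ => ?_
      simp only [Set.indicator_apply, Set.mem_ofPred_eq]
  classical
  obtain ⟨hM1, hM2⟩ := Nat.find_spec hex
  set M := Nat.find hex with hM
  have hNM : N < M := by
    rcases hM1.lt_or_eq with h | h
    · exact h
    · exfalso
      rw [← h] at hM2
      simp [blk] at hM2
      linarith
  refine ⟨M, hNM, ?_, hM2⟩
  have hprev : ¬ (N ≤ M - 1 ∧ blk N (M - 1) ≤ τ) := Nat.find_min hex (by omega)
  have h5 : τ < blk N (M - 1) := by
    by_contra h
    exact hprev ⟨by omega, not_lt.mp h⟩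
  have h6 : blk N (M - 1) / 2 ≤ blk N M := by
    obtain ⟨K, hK⟩ : ∃ K, M = K + 1 := ⟨M - 1, by omega⟩
    rw [hK, Nat.add_sub_cancel]
    unfold blk
    have hIoc : Finset.Ioc N (K + 1) = insert (K + 1) (Finset.Ioc N K) := by
      ext i
      rw [Finset.mem_insert, Finset.mem_Ioc, Finset.mem_Ioc]
      omega
    rw [hIoc, Finset.filter_insert]
    have hpos := blk_pos N K
    unfold blk at hpos
    split_ifs with hp
    · rw [Finset.prod_insert (by simp)]
      have := one_sub_nonneg hp
      nlinarith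
    · linarith
  linarith

/-- The slowly summable sequence. -/
noncomputable def tau (t : ℕ) : ℝ :=
  1 / (2 ^ (Nat.log 2 t + 1) * ((Nat.log 2 t : ℝ) + 1) ^ 2)

theorem tau_pos (t : ℕ) : 0 < tau t := by
  unfold tau
  positivity

theorem tau_le (t : ℕ) : tau t ≤ 1 / 2 ^ (Nat.log 2 t + 1) := by
  unfold tau
  refine one_div_le_one_div_of_le (by positivity) ?_
  have h1 : (1 : ℝ) ≤ ((Nat.log 2 t : ℝ) + 1) ^ 2 := by
    have : (0 : ℝ) ≤ (Nat.log 2 t : ℝ) := by positivity
    nlinarith
  have h2 : (0 : ℝ) < 2 ^ (Nat.log 2 t + 1) := by positivity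
  nlinarith

theorem tau_lt_one (t : ℕ) : tau t < 1 := by
  refine (tau_le t).trans_lt ?_
  rw [div_lt_one (by positivity)]
  exact one_lt_pow₀ (by norm_num) (by omega)

theorem tau_summable : Summable tau := by
  rw [← summable_condensed_iff_of_nonneg (fun n => (tau_pos n).le)]
  · have h1 : (fun k : ℕ => (2 : ℝ) ^ k * tau (2 ^ k)) =
        fun k : ℕ => (1 / 2) * (1 / ((k + 1 : ℕ) : ℝ) ^ 2) := by
      funext k
      unfold tau
      rw [Nat.log_pow (by norm_num)]
      push_cast
      have h2 : (2 : ℝ) ^ k ≠ 0 := by positivity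
      have h3 : ((k : ℝ) + 1) ≠ 0 := by positivity
      field_simp
      ring
    rw [h1]
    refine Summable.mul_left _ ?_
    exact (summable_nat_add_iff 1).mpr (Real.summable_one_div_nat_pow.mpr (by norm_num))
  · intro m n hm hmn
    unfold tau
    have h1 : Nat.log 2 m ≤ Nat.log 2 n := Nat.log_mono_right hmn
    have h2 : (Nat.log 2 m : ℝ) ≤ Nat.log 2 n := by exact_mod_cast h1
    refine one_div_le_one_div_of_le (by positivity) ?_
    refine mul_le_mul (pow_le_pow_right₀ (by norm_num) (by omega)) ?_ (by positivity)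
      (by positivity)
    refine pow_le_pow_left₀ (by positivity) (by linarith) 2

theorem tau_log_not_summable : ¬ Summable fun t => tau t / 2 * (-Real.log (tau t)) := by
  intro hs
  set σ : ℕ → ℝ := fun t => 1 / (2 ^ (Nat.log 2 t + 2) * ((Nat.log 2 t : ℝ) + 1)) with hσ
  have hσs : Summable fun t => Real.log 2 * σ t := by
    refine Summable.of_nonneg_of_le (fun t => ?_) (fun t => ?_) hs
    · have := Real.log_nonneg (show (1 : ℝ) ≤ 2 by norm_num)
      simp only [hσ]
      positivity
    · have h1 : -Real.log (tau t) ≥ (Nat.log 2 t + 1) * Real.log 2 := by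
        have h2 := Real.log_le_log (tau_pos t) (tau_le t)
        rw [one_div, Real.log_inv, Real.log_pow] at h2
        push_cast at h2
        linarith
      have h3 : Real.log 2 * σ t = tau t / 2 * ((Nat.log 2 t + 1) * Real.log 2) := by
        simp only [hσ, tau]
        have h2 : (2 : ℝ) ^ (Nat.log 2 t) ≠ 0 := by positivity
        have h3 : ((Nat.log 2 t : ℝ) + 1) ≠ 0 := by positivity
        field_simp
        ring
      rw [h3]
      exact mul_le_mul_of_nonneg_left h1 (by have := tau_pos t; linarith)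
  have hσs' : Summable σ := by
    rwa [summable_mul_left_iff (by positivity)] at hσs
  rw [← summable_condensed_iff_of_nonneg] at hσs'
  · have h1 : (fun k : ℕ => (2 : ℝ) ^ k * σ (2 ^ k)) =
        fun k : ℕ => (1 / 4) * (1 / ((k + 1 : ℕ) : ℝ)) := by
      funext k
      simp only [hσ]
      rw [Nat.log_pow (by norm_num)]
      push_cast
      have h2 : (2 : ℝ) ^ k ≠ 0 := by positivity
      have h3 : ((k : ℝ) + 1) ≠ 0 := by positivity
      field_simp
      ring
    rw [h1, summable_mul_left_iff (by norm_num)] at hσs'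
    exact Real.not_summable_one_div_natCast ((summable_nat_add_iff 1).mp hσs')
  · intro n
    simp only [hσ]
    positivity
  · intro m n hm hmn
    simp only [hσ]
    have h1 : Nat.log 2 m ≤ Nat.log 2 n := Nat.log_mono_right hmn
    have h2 : (Nat.log 2 m : ℝ) ≤ Nat.log 2 n := by exact_mod_cast h1
    refine one_div_le_one_div_of_le (by positivity) ?_
    exact mul_le_mul (pow_le_pow_right₀ (by norm_num) (by omega)) (by linarith) (by positivity)
      (by positivity)

/-- The blocks of primes. -/
theorem exists_blocks : ∃ P : ℕ → Finset ℕ, (∀ t, ∀ p ∈ P t, p.Prime) ∧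
    (∀ s t p, p ∈ P s → p ∈ P t → s = t) ∧
    (∀ t, tau t / 2 < ∏ p ∈ P t, (1 - 1 / (p : ℝ)) ∧ ∏ p ∈ P t, (1 - 1 / (p : ℝ)) ≤ tau t) := by
  choose nx h1 h2 h3 using fun (N t : ℕ) => exists_block N (tau t) (tau_pos t) (tau_lt_one t)
  let N : ℕ → ℕ := fun t => Nat.rec 0 (fun t N => nx N t) t
  have hN : ∀ t, N (t + 1) = nx (N t) t := fun t => rfl
  have hmono : StrictMono N := strictMono_nat_of_lt_succ fun t => by
    rw [hN]
    exact h1 _ _
  refine ⟨fun t => (Finset.Ioc (N t) (N (t + 1))).filter Nat.Prime, ?_, ?_, ?_⟩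
  · intro t p hp
    exact (Finset.mem_filter.mp hp).2
  · intro s t p hs ht
    rw [Finset.mem_filter, Finset.mem_Ioc] at hs ht
    rcases lt_trichotomy s t with h | h | h
    · have := hmono.monotone (show s + 1 ≤ t from h)
      omega
    · exact h
    · have := hmono.monotone (show t + 1 ≤ s from h)
      omega
  · intro t
    exact ⟨h2 (N t) t, h3 (N t) t⟩

end Pool.Agent.R165.LS
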