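import Pool.Agent.R165.LS.A

/-!
# Counting residues divisible by no prime, or exactly one prime, of a block
-/

namespace Pool.Agent.R165.LS

open Finset Filter Topology

theorem totient_prod_real {P : Finset ℕ} (hP : ∀ p ∈ P, p.Prime) :
    ((Nat.totient (∏ p ∈ P, p) : ℕ) : ℝ) = (∏ p ∈ P, (p : ℝ)) * ∏ p ∈ P, (1 - 1 / (p : ℝ)) := by
  have h1 := Nat.totient_eq_mul_prod_factors (∏ p ∈ P, p)
  rw [Nat.primeFactors_prod hP] at h1
  have h2 : ((Nat.totient (∏ p ∈ P, p) : ℕ) : ℝ) = (((Nat.totient (∏ p ∈ P, p) : ℕ) : ℚ) : ℝ) := by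
    push_cast
    rfl
  rw [h2, h1]
  push_cast
  congr 1
  refine Finset.prod_congr rfl fun p _ => ?_
  rw [one_div]

theorem count_zero {P : Finset ℕ} (hP : ∀ p ∈ P, p.Prime) :
    (#{r ∈ range (∏ p ∈ P, p) | ∀ q ∈ P, ¬ q ∣ r} : ℝ) =
      (∏ p ∈ P, (p : ℝ)) * ∏ p ∈ P, (1 - 1 / (p : ℝ)) := by
  rw [← totient_prod_real hP, Nat.totient_eq_card_coprime]
  norm_cast
  congr 1
  refine Finset.filter_congr fun r _ => ?_
  rw [Nat.coprime_prod_left_iff]
  refine forall₂_congr fun q hq => ?_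
  exact ((hP q hq).coprime_iff_not_dvd).symm

theorem totient_div_real {P : Finset ℕ} (hP : ∀ p ∈ P, p.Prime) {p : ℕ} (hp : p ∈ P) :
    ((Nat.totient ((∏ q ∈ P, q) / p) : ℕ) : ℝ) =
      (∏ q ∈ P, (q : ℝ)) * ((∏ q ∈ P, (1 - 1 / (q : ℝ))) * (1 / ((p : ℝ) - 1))) := by
  have hpp := hP p hp
  have h1 : (∏ q ∈ P, q) / p = ∏ q ∈ P.erase p, q := by
    rw [← Finset.mul_prod_erase P _ hp, Nat.mul_div_cancel_left _ hpp.pos]
  rw [h1, totient_prod_real fun q hq => hP q (Finset.mem_of_mem_erase hq),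
    ← Finset.mul_prod_erase P (fun q : ℕ => (q : ℝ)) hp,
    ← Finset.mul_prod_erase P (fun q : ℕ => 1 - 1 / (q : ℝ)) hp]
  have h2 : (p : ℝ) ≠ 0 := by exact_mod_cast hpp.ne_zero
  have h3 : (p : ℝ) - 1 ≠ 0 := by
    have : (1 : ℝ) < p := by exact_mod_cast hpp.one_lt
    linarith
  field_simp

theorem count_one {P : Finset ℕ} (hP : ∀ p ∈ P, p.Prime) :
    (∏ p ∈ P, (p : ℝ)) * ((∏ p ∈ P, (1 - 1 / (p : ℝ))) *
      (-Real.log (∏ p ∈ P, (1 - 1 / (p : ℝ))))) ≤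
    (#{r ∈ range (∏ p ∈ P, p) | ∃ p ∈ P, p ∣ r ∧ ∀ q ∈ P, q ≠ p → ¬ q ∣ r} : ℝ) := by
  classical
  set R := ∏ p ∈ P, p with hR
  have hdvd : ∀ p ∈ P, p ∣ R := fun p hp => Finset.dvd_prod_of_mem _ hp
  have hsub : P.biUnion (fun p => {r ∈ range R | R.gcd r = p}) ⊆
      {r ∈ range R | ∃ p ∈ P, p ∣ r ∧ ∀ q ∈ P, q ≠ p → ¬ q ∣ r} := by
    intro r hr
    rw [Finset.mem_biUnion] at hr
    obtain ⟨p, hp, hr⟩ := hr
    rw [Finset.mem_filter] at hr ⊢
    refine ⟨hr.1, p, hp, ?_, ?_⟩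
    · rw [← hr.2]
      exact Nat.gcd_dvd_right _ _
    · intro q hq hqp hqr
      have h1 : q ∣ R.gcd r := Nat.dvd_gcd (hdvd q hq) hqr
      rw [hr.2] at h1
      exact hqp ((Nat.prime_dvd_prime_iff_eq (hP q hq) (hP p hp)).mp h1)
  have hcard := Finset.card_le_card hsub
  rw [Finset.card_biUnion (by
    intro p _ q _ hpq
    rw [Function.onFun, Finset.disjoint_left]
    intro r h1 h2
    rw [Finset.mem_filter] at h1 h2
    exact hpq (h1.2.symm.trans h2.2))] at hcard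
  have h1 : (∑ p ∈ P, (#{r ∈ range R | R.gcd r = p} : ℝ)) =
      (∏ p ∈ P, (p : ℝ)) * ((∏ p ∈ P, (1 - 1 / (p : ℝ))) * ∑ p ∈ P, 1 / ((p : ℝ) - 1)) := by
    rw [Finset.mul_sum, Finset.mul_sum]
    refine Finset.sum_congr rfl fun p hp => ?_
    rw [← Nat.totient_div_of_dvd (hdvd p hp), hR, totient_div_real hP hp]
  have h2 : ((∑ p ∈ P, #{r ∈ range R | R.gcd r = p} : ℕ) : ℝ) ≤
      (#{r ∈ range R | ∃ p ∈ P, p ∣ r ∧ ∀ q ∈ P, q ≠ p → ¬ q ∣ r} : ℝ) := by
    exact_mod_cast hcard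
  refine le_trans ?_ h2
  push_cast
  rw [h1]
  refine mul_le_mul_of_nonneg_left (mul_le_mul_of_nonneg_left ?_ ?_) ?_
  · rw [Real.log_prod fun p hp => ?_, ← Finset.sum_neg_distrib]
    · refine Finset.sum_le_sum fun p hp => ?_
      have hp1 : (1 : ℝ) < p := by exact_mod_cast (hP p hp).one_lt
      have h3 : -Real.log (1 - 1 / (p : ℝ)) = Real.log ((p : ℝ) / (p - 1)) := by
        rw [← Real.log_inv]
        congr 1
        have : (p : ℝ) - 1 ≠ 0 := by linarith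
        have : (p : ℝ) ≠ 0 := by linarith
        field_simp
      rw [h3]
      have h4 : 0 < (p : ℝ) / (p - 1) := by
        have : 0 < (p : ℝ) - 1 := by linarith
        positivity
      have h5 := Real.log_le_sub_one_of_pos h4
      have h6 : (p : ℝ) / (p - 1) - 1 = 1 / (p - 1) := by
        have : (p : ℝ) - 1 ≠ 0 := by linarith
        field_simp
        ring
      linarith
    · have := one_sub_nonneg (hP p hp)
      linarith
  · refine Finset.prod_nonneg fun p hp => ?_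
    have := one_sub_nonneg (hP p hp)
    linarith
  · exact Finset.prod_nonneg fun p _ => by positivity

end Pool.Agent.R165.LS
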