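import Pool.Agent.R165.LS.B

/-!
# Borel-Cantelli for mixed radix digits
-/

namespace Pool.Agent.R165.LS

open Finset Filter Topology MeasureTheory
open scoped ENNReal

theorem volume_cells (N : ℕ) (hN : 0 < N) (A : Finset ℕ) :
    volume {x : ℝ | x ∈ Set.Ico (0 : ℝ) 1 ∧ ⌊(N : ℝ) * x⌋₊ ∈ A} ≤
      ENNReal.ofReal ((#A : ℝ) / N) := by
  have hN' : (0 : ℝ) < N := by exact_mod_cast hN
  have hsub : {x : ℝ | x ∈ Set.Ico (0 : ℝ) 1 ∧ ⌊(N : ℝ) * x⌋₊ ∈ A} ⊆
      ⋃ i ∈ A, Set.Ico ((i : ℝ) / N) (((i : ℝ) + 1) / N) := by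
    rintro x ⟨hx, hxA⟩
    rw [Set.mem_iUnion₂]
    refine ⟨_, hxA, ?_, ?_⟩
    · rw [div_le_iff₀ hN', mul_comm x]
      exact Nat.floor_le (mul_nonneg hN'.le hx.1)
    · rw [lt_div_iff₀ hN', mul_comm x]
      exact Nat.lt_floor_add_one _
  refine (measure_mono hsub).trans ((measure_biUnion_finset_le _ _).trans ?_)
  have h1 : ∀ i ∈ A, volume (Set.Ico ((i : ℝ) / N) (((i : ℝ) + 1) / N)) =
      ENNReal.ofReal (1 / N) := by
    intro i _
    rw [Real.volume_Ico]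
    congr 1
    ring
  rw [Finset.sum_congr rfl h1, Finset.sum_const, ← ENNReal.ofReal_nsmul]
  refine le_of_eq (congrArg _ ?_)
  rw [nsmul_eq_mul]
  ring

theorem card_step {R : ℕ} (hR : 0 < R) (A : Finset ℕ) (D : ℕ → Prop) [DecidablePred D]
    (hD : ∀ a, D a → D (a % R)) (B : Finset ℕ) (hB : ∀ b ∈ B, b / R ∈ A ∧ D b) :
    #B ≤ #A * #{r ∈ range R | D r} := by
  rw [← Finset.card_product]
  refine Finset.card_le_card_of_injOn (fun b => (b / R, b % R)) ?_ ?_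
  · intro b hb
    have := hB b hb
    rw [Finset.mem_coe, Finset.mem_product, Finset.mem_filter, Finset.mem_range]
    exact ⟨this.1, Nat.mod_lt _ hR, hD b this.2⟩
  · intro b _ c _ hbc
    have h1 : b / R = c / R := congrArg Prod.fst hbc
    have h2 : b % R = c % R := congrArg Prod.snd hbc
    rw [← Nat.div_add_mod b R, ← Nat.div_add_mod c R, h1, h2]

variable (R : ℕ → ℕ)

/-- The partial products. -/
def q (n : ℕ) : ℕ := ∏ s ∈ range n, R s

theorem q_succ (n : ℕ) : q R (n + 1) = q R n * R n := Finset.prod_range_succ _ _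

variable {R}

theorem q_pos (hR : ∀ t, 0 < R t) (n : ℕ) : 0 < q R n := Finset.prod_pos fun t _ => hR t

theorem floor_q (hR : ∀ t, 0 < R t) (n : ℕ) (x : ℝ) :
    ⌊(q R (n + 1) : ℝ) * x⌋₊ / R n = ⌊(q R n : ℝ) * x⌋₊ := by
  rw [← Nat.floor_div_natCast]
  congr 1
  have : (R n : ℝ) ≠ 0 := by exact_mod_cast (hR n).ne'
  rw [q_succ]
  push_cast
  field_simp

theorem floor_lt (hR : ∀ t, 0 < R t) (n : ℕ) {x : ℝ} (hx : x ∈ Set.Ico (0 : ℝ) 1) :
    ⌊(q R n : ℝ) * x⌋₊ < q R n := by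
  have h1 : (0 : ℝ) < q R n := by exact_mod_cast q_pos hR n
  rw [Nat.floor_lt (mul_nonneg h1.le hx.1)]
  nlinarith [hx.2]

theorem bc_one (hR : ∀ t, 0 < R t) (Z : ℕ → Set ℕ) (hZ : ∀ t a, a ∈ Z t → a % R t ∈ Z t)
    (p : ℕ → ℝ) (hp : ∀ t, ∃ B : Finset ℕ, (∀ r < R t, r ∈ Z t → r ∈ B) ∧
      (#B : ℝ) ≤ R t * p t) (hs : Summable p) :
    ∀ᵐ x : ℝ, x ∈ Set.Ico (0 : ℝ) 1 → ∀ᶠ t in atTop, ⌊(q R (t + 1) : ℝ) * x⌋₊ ∉ Z t := by
  classical
  replace hp : ∀ t, (#{r ∈ range (R t) | r ∈ Z t} : ℝ) ≤ R t * p t := by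
    intro t
    obtain ⟨B, hB1, hB2⟩ := hp t
    refine le_trans ?_ hB2
    have h1 : #{r ∈ range (R t) | r ∈ Z t} ≤ #B := Finset.card_le_card fun r hr => by
      rw [Finset.mem_filter, Finset.mem_range] at hr
      exact hB1 r hr.1 hr.2
    exact_mod_cast h1
  have hp0 : ∀ t, 0 ≤ p t := by
    intro t
    have h1 : (0 : ℝ) ≤ R t * p t := le_trans (by positivity) (hp t)
    exact nonneg_of_mul_nonneg_right h1 (by exact_mod_cast hR t)
  have hm : ∀ t, volume {x : ℝ | x ∈ Set.Ico (0 : ℝ) 1 ∧ ⌊(q R (t + 1) : ℝ) * x⌋₊ ∈ Z t} ≤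
      ENNReal.ofReal (p t) := by
    intro t
    set B : Finset ℕ := {a ∈ range (q R (t + 1)) | a ∈ Z t} with hB
    have h1 : {x : ℝ | x ∈ Set.Ico (0 : ℝ) 1 ∧ ⌊(q R (t + 1) : ℝ) * x⌋₊ ∈ Z t} ⊆
        {x : ℝ | x ∈ Set.Ico (0 : ℝ) 1 ∧ ⌊(q R (t + 1) : ℝ) * x⌋₊ ∈ B} := by
      rintro x ⟨hx, hxZ⟩
      refine ⟨hx, ?_⟩
      rw [hB, Finset.mem_filter, Finset.mem_range]
      exact ⟨floor_lt hR _ hx, hxZ⟩
    refine (measure_mono h1).trans ((volume_cells _ (q_pos hR _) B).trans ?_)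
    refine ENNReal.ofReal_le_ofReal ?_
    rw [div_le_iff₀ (by exact_mod_cast q_pos hR _)]
    have h2 := card_step (hR t) (range (q R t)) (fun a => a ∈ Z t) (hZ t) B (by
      intro b hb
      rw [hB, Finset.mem_filter, Finset.mem_range, q_succ] at hb
      refine ⟨?_, hb.2⟩
      rw [Finset.mem_range]
      exact Nat.div_lt_of_lt_mul (by rw [mul_comm]; exact hb.1))
    rw [Finset.card_range] at h2
    have h3 : (#B : ℝ) ≤ q R t * #{r ∈ range (R t) | r ∈ Z t} := by exact_mod_cast h2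
    have h4 : (0 : ℝ) ≤ q R t := by positivity
    calc (#B : ℝ) ≤ q R t * #{r ∈ range (R t) | r ∈ Z t} := h3
      _ ≤ q R t * (R t * p t) := mul_le_mul_of_nonneg_left (hp t) h4
      _ = p t * (q R (t + 1) : ℕ) := by
        rw [q_succ]
        push_cast
        ring
  have hsum : (∑' t, volume {x : ℝ | x ∈ Set.Ico (0 : ℝ) 1 ∧
      ⌊(q R (t + 1) : ℝ) * x⌋₊ ∈ Z t}) ≠ ∞ := by
    refine ne_top_of_le_ne_top ?_ (ENNReal.tsum_le_tsum hm)
    rw [← ENNReal.ofReal_tsum_of_nonneg hp0 hs]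
    exact ENNReal.ofReal_ne_top
  filter_upwards [ae_eventually_notMem hsum] with x hx hx1
  filter_upwards [hx] with t ht hZt
  exact ht ⟨hx1, hZt⟩

theorem bc_two (hR : ∀ t, 0 < R t) (O : ℕ → Set ℕ) (hO : ∀ t a, a % R t ∈ O t → a ∈ O t)
    (e : ℕ → ℝ) (he : ∀ t, ∃ B : Finset ℕ, (∀ r < R t, r ∉ O t → r ∈ B) ∧
      (#B : ℝ) ≤ R t * e t)
    (hprod : ∀ t0, Tendsto (fun k => ∏ j ∈ range k, e (t0 + j)) atTop (𝓝 0)) :
    ∀ᵐ x : ℝ, x ∈ Set.Ico (0 : ℝ) 1 → ∃ᶠ t in atTop, ⌊(q R (t + 1) : ℝ) * x⌋₊ ∈ O t := by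
  classical
  replace he : ∀ t, (#{r ∈ range (R t) | r ∉ O t} : ℝ) ≤ R t * e t := by
    intro t
    obtain ⟨B, hB1, hB2⟩ := he t
    refine le_trans ?_ hB2
    have h1 : #{r ∈ range (R t) | r ∉ O t} ≤ #B := Finset.card_le_card fun r hr => by
      rw [Finset.mem_filter, Finset.mem_range] at hr
      exact hB1 r hr.1 hr.2
    exact_mod_cast h1
  have key : ∀ t0 : ℕ, ∀ᵐ x : ℝ, ¬ (x ∈ Set.Ico (0 : ℝ) 1 ∧
      ∀ t, t0 ≤ t → ⌊(q R (t + 1) : ℝ) * x⌋₊ ∉ O t) := by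
    intro t0
    let G : ℕ → Finset ℕ := fun k => Nat.rec (motive := fun _ => Finset ℕ) (range (q R t0))
      (fun k G => (range (q R (t0 + k + 1))).filter
        fun a : ℕ => a / R (t0 + k) ∈ G ∧ a ∉ O (t0 + k)) k
    have hG : ∀ k, G (k + 1) =
      {a ∈ range (q R (t0 + k + 1)) | a / R (t0 + k) ∈ G k ∧ a ∉ O (t0 + k)} := fun k => rfl
    have hcard : ∀ k, (#(G k) : ℝ) ≤ q R (t0 + k) * ∏ j ∈ range k, e (t0 + j) := by
      intro k
      induction k with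
      | zero =>
        have : G 0 = range (q R t0) := rfl
        simp [this]
      | succ k ih =>
        have h1 := card_step (hR (t0 + k)) (G k) (fun a => a ∉ O (t0 + k))
          (fun a ha hc => ha (hO _ _ hc)) (G (k + 1)) (by
            intro b hb
            rw [hG, Finset.mem_filter] at hb
            exact hb.2)
        have h2 : (#(G (k + 1)) : ℝ) ≤ #(G k) * #{r ∈ range (R (t0 + k)) | r ∉ O (t0 + k)} := by
          exact_mod_cast h1
        have h3 := he (t0 + k)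
        calc (#(G (k + 1)) : ℝ) ≤ #(G k) * #{r ∈ range (R (t0 + k)) | r ∉ O (t0 + k)} := h2
          _ ≤ (q R (t0 + k) * ∏ j ∈ range k, e (t0 + j)) *
              (R (t0 + k) * e (t0 + k)) :=
            mul_le_mul ih h3 (by positivity) (le_trans (by positivity) ih)
          _ = _ := by
            rw [Finset.prod_range_succ, ← add_assoc, q_succ]
            push_cast
            ring
    rw [ae_iff]
    have hle : ∀ k, volume {x : ℝ | ¬¬ (x ∈ Set.Ico (0 : ℝ) 1 ∧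
        ∀ t, t0 ≤ t → ⌊(q R (t + 1) : ℝ) * x⌋₊ ∉ O t)} ≤
        ENNReal.ofReal (∏ j ∈ range k, e (t0 + j)) := by
      intro k
      have h1 : {x : ℝ | ¬¬ (x ∈ Set.Ico (0 : ℝ) 1 ∧
          ∀ t, t0 ≤ t → ⌊(q R (t + 1) : ℝ) * x⌋₊ ∉ O t)} ⊆
          {x : ℝ | x ∈ Set.Ico (0 : ℝ) 1 ∧ ⌊(q R (t0 + k) : ℝ) * x⌋₊ ∈ G k} := by
        intro x hx
        obtain ⟨hx1, hx2⟩ := not_not.mp hx
        refine ⟨hx1, ?_⟩
        induction k with
        | zero =>
          have : G 0 = range (q R t0) := rfl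
          rw [this, Finset.mem_range]
          exact floor_lt hR _ hx1
        | succ k ih =>
          rw [hG, Finset.mem_filter, Finset.mem_range]
          refine ⟨floor_lt hR _ hx1, ?_, hx2 _ (by omega)⟩
          rw [← add_assoc, floor_q hR]
          exact ih
      refine (measure_mono h1).trans ((volume_cells _ (q_pos hR _) _).trans ?_)
      refine ENNReal.ofReal_le_ofReal ?_
      rw [div_le_iff₀ (by exact_mod_cast q_pos hR _), mul_comm]
      exact hcard k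
    have hlim : Tendsto (fun k => ENNReal.ofReal (∏ j ∈ range k, e (t0 + j))) atTop (𝓝 0) := by
      have := ENNReal.tendsto_ofReal (hprod t0)
      rwa [ENNReal.ofReal_zero] at this
    exact le_antisymm (ge_of_tendsto' hlim hle) zero_le
  have key' := ae_all_iff.mpr key
  filter_upwards [key'] with x hx hx1
  rw [frequently_atTop]
  intro t0
  by_contra hcon
  push Not at hcon
  exact hx t0 ⟨hx1, fun t ht => hcon t ht⟩

end Pool.Agent.R165.LS
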